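import Mathlib
import Pool.Agent.TH796.F4.Stop5

set_option autoImplicit false

/-!
Trajectories of the `3x+1` function with few parity words.
-/

namespace Pool.Agent.Results.MP_a1568a_nt.LowComplexityTimes

/-- The `3x+1` function on the natural numbers. -/
def T (n : ℕ) : ℕ := if n % 2 = 0 then n / 2 else (3 * n + 1) / 2

/-- `σ` is the total stopping time of `n`. -/
def IsTotalStoppingTime (n σ : ℕ) : Prop := T^[σ] n = 1 ∧ ∀ k < σ, T^[k] n ≠ 1

/-- the different words of length `m` which occur in the word of the first `N` parities of the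
trajectory of `n` -/
def words (n N m : ℕ) : Finset (Fin m → ℕ) :=
  ((Finset.range (N + 1)).filter fun i => i + m ≤ N).image
    fun i => fun j : Fin m => T^[i + j] n % 2

/-- the different words of length `m` which occur in the infinite parity word of `n` -/
def allWords (n m : ℕ) : Set (Fin m → ℕ) := Set.range fun i : ℕ => fun j : Fin m => T^[i + j] n % 2

lemma T_eq : T = Pool.Agent.TH796.F4.TN := rfl

/-- For every real `C` there are `K` and a finite set `F` of periodic points of `T` such that for every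
`n ≥ 2`: (1) the trajectory of `n` has a repetition `T^i n = T^j n` with `i < j ≤ K log n`, or there
is `m` with `log n ≤ m ≤ K log n` such that more than `C m` different words of length `m` occur among
the first `⌊K log n⌋` parities; (2) if `n` has a finite total stopping time `σ` and at most `C m`
different words of length `m` occur among the first `σ` parities, for every `m` with
`log n ≤ m ≤ σ`, then `σ ≤ K log n`; (3) if at most `C m` different words of length `m` occur in the
infinite parity word of `n`, for every `m ≥ 1`, then `T^k n ∈ F` for some `k ≤ K log n`. -/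
theorem result (C : ℝ) : ∃ (K : ℝ) (F : Finset ℕ), (∀ y ∈ F, ∃ p, 1 ≤ p ∧ T^[p] y = y) ∧
    ∀ n : ℕ, 2 ≤ n →
      ((∃ i j : ℕ, i < j ∧ (j : ℝ) ≤ K * Real.log n ∧ T^[i] n = T^[j] n) ∨
        ∃ m : ℕ, Real.log n ≤ m ∧ (m : ℝ) ≤ K * Real.log n ∧
          C * m < (words n ⌊K * Real.log n⌋₊ m).card) ∧
      (∀ σ : ℕ, IsTotalStoppingTime n σ →
        (∀ m : ℕ, Real.log n ≤ m → m ≤ σ → ((words n σ m).card : ℝ) ≤ C * m) →
        (σ : ℝ) ≤ K * Real.log n) ∧
      ((∀ m : ℕ, 1 ≤ m → ((allWords n m).ncard : ℝ) ≤ C * m) →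
        ∃ k : ℕ, (k : ℝ) ≤ K * Real.log n ∧ T^[k] n ∈ F) := by
  obtain ⟨K, hK1, F, hF, h⟩ := Pool.Agent.TH796.F4.all C
  refine ⟨K, F, hF, fun n hn => ?_⟩
  obtain ⟨h1, h2, h3⟩ := h n hn
  exact ⟨h1, fun σ hσ => h2 σ hσ.1 hσ.2, h3⟩

end Pool.Agent.Results.MP_a1568a_nt.LowComplexityTimes
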