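import Pool.Agent.TH465.PP.Level

set_option autoImplicit false

/-!
The total stopping time of the `3x+1` function along linear forms in two primes.

For fixed nonzero integers `a`, `b` the total stopping times of the positive values of
`a p + b q + c`, where `p` and `q` run through arbitrary sets of primes up to `N`, follow the same limit
law as for all integers, also in residue classes, uniformly in the two sets of primes and in `|c| ≤ N`;
and so do their averages, truncated at `Λ log N`, `Λ > 2 / log (4/3)`.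
-/

namespace Pool.Agent.Results.MP_a1568a_nt.PrimePairs

open Filter Topology

/-- the `3x+1` function -/
def T (n : ℕ) : ℕ := if n % 2 = 0 then n / 2 else (3 * n + 1) / 2

/-- the total stopping time, the least `k` with `T^k(n) = 1`, and `⊤ = ∞` if there is none -/
noncomputable def sigma (n : ℕ) : ℕ∞ := sInf {k : ℕ∞ | ∃ j : ℕ, T^[j] n = 1 ∧ k = j}

/-- the total stopping time truncated at `t`, that is `min (σ(n), t)` -/
noncomputable def truncated (t : ℝ) (n : ℕ) : ℝ := if sigma n = ⊤ then t else min ((sigma n).toNat : ℝ) t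

/-- the positive integers with the property `P` have the natural density `δ` -/
def HasDensity (P : ℕ → Prop) (δ : ℝ) : Prop :=
  Tendsto (fun N : ℕ => ({n : ℕ | 1 ≤ n ∧ n ≤ N ∧ P n}.ncard : ℝ) / N) atTop (𝓝 δ)

/-- `2 / log (4/3) * log n + x * log 3 * √(2 log n / (log (4/3))^3)` -/
noncomputable def bound (x : ℝ) (n : ℕ) : ℝ :=
  2 / Real.log (4 / 3) * Real.log n
    + x * (Real.log 3 * Real.sqrt (2 * Real.log n / Real.log (4 / 3) ^ 3))

/-- The distribution function of the standard normal law. -/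
noncomputable def Phi (x : ℝ) : ℝ :=
  ProbabilityTheory.cdf (ProbabilityTheory.gaussianReal 0 1) x

/-- The total stopping time of `n` is finite, at most `bound x n` and congruent to `r` modulo `m`. -/
def Level (m : ℕ) (r : ℤ) (x : ℝ) (n : ℕ) : Prop :=
  ∃ t : ℕ, sigma n = t ∧ (t : ℝ) ≤ bound x n ∧ (t : ℤ) ≡ r [ZMOD m]

/-- the pairs `(p, q)` of `B × B'` with `a p + b q + c > 0` -/
def Pairs (a b c : ℤ) (B B' : Finset ℕ) : Finset (ℕ × ℕ) :=
  (B ×ˢ B').filter (fun z => 0 < a * (z.1 : ℤ) + b * z.2 + c)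

open Pool.Agent.H499R2.HL in
theorem sigma_eq {n k : ℕ} (h : H k n) : sigma n = k := by
  unfold sigma
  apply le_antisymm
  · exact sInf_le ⟨k, h.1, rfl⟩
  · refine le_sInf ?_
    rintro j ⟨i, hi, rfl⟩
    have : k ≤ i := by
      by_contra hlt
      exact h.2 i (by omega) hi
    exact_mod_cast this

open Pool.Agent.H499R2.HL in
theorem exists_H {n j : ℕ} (h : T^[j] n = 1) : ∃ k, H k n := by
  classical
  have hex : ∃ k, T^[k] n = 1 := ⟨j, h⟩
  exact ⟨Nat.find hex, Nat.find_spec hex, fun i hi => Nat.find_min hex hi⟩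

open Pool.Agent.H499R2.HL in
theorem sigma_top {n : ℕ} (h : ¬ ∃ k, H k n) : sigma n = ⊤ := by
  unfold sigma
  have : {k : ℕ∞ | ∃ j : ℕ, T^[j] n = 1 ∧ k = j} = ∅ := by
    rw [Set.eq_empty_iff_forall_notMem]
    rintro k ⟨j, hj, _⟩
    exact h (exists_H hj)
  rw [this, sInf_empty]

open Pool.Agent.H499R2.HL in
theorem sigma_ne_top {n : ℕ} : sigma n ≠ ⊤ ↔ ∃ k, H k n := by
  constructor
  · intro h
    by_contra hcon
    exact h (sigma_top hcon)
  · rintro ⟨k, hk⟩
    rw [sigma_eq hk]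
    exact ENat.natCast_ne_top k

open Pool.Agent.H499R2.HL in
theorem sigma_iff {n k : ℕ} : sigma n = k ↔ H k n := by
  constructor
  · intro h
    obtain ⟨k', hk'⟩ := sigma_ne_top.1 (show sigma n ≠ ⊤ by rw [h]; exact ENat.natCast_ne_top k)
    have h1 := sigma_eq hk'
    rw [h] at h1
    have h2 : k = k' := by exact_mod_cast h1
    rw [h2]; exact hk'
  · exact sigma_eq

theorem truncated_isTr : Pool.Agent.TH465.PP.IsTrG Pool.Agent.TH465.PP.valK truncated := by
  constructor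
  · intro t n k hk
    unfold truncated
    rw [sigma_eq hk, if_neg (ENat.natCast_ne_top k), ENat.toNat_natCast]
    rfl
  · intro t n hn
    unfold truncated
    rw [sigma_top hn, if_pos rfl]

theorem level_iff (m : ℕ) (r : ℤ) (x : ℝ) (z : ℤ) (hz : 0 < z) : Level m r x z.toNat ↔
    Pool.Agent.TH465.PP.LvZ Pool.Agent.TH465.PP.valK (Pool.Agent.TH465.PP.clsK m r)
      (Pool.Agent.TH465.PP.th Pool.Agent.TH465.PP.A0 Pool.Agent.TH465.PP.c0 x) z := by
  have hb : bound x z.toNat = Pool.Agent.W36.JL.bd x z.toNat := rfl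
  unfold Level Pool.Agent.TH465.PP.LvZ
  rw [Pool.Agent.TH465.PP.lv_iff, hb]
  unfold Pool.Agent.W36.JL.EB
  constructor
  · rintro ⟨t, h1, h2, h3⟩
    exact ⟨hz, t, h2, sigma_iff.1 h1, h3⟩
  · rintro ⟨_, t, h2, h1, h3⟩
    exact ⟨t, sigma_iff.2 h1, h2, h3⟩

/-- THE TOTAL STOPPING TIME ALONG LINEAR FORMS IN TWO PRIMES. The integers with finite total stopping
time have a positive natural density `δ`, and `δ = 1` if and only if all positive integers are of this
kind. For all nonzero integers `a`, `b` and every `ε > 0`, if `N` is large, then for arbitrary sets `B`,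
`B'` of primes up to `N` and every integer `c` with `|c| ≤ N`:

(1) (law) the number of the pairs `(p, q)` of `B × B'` for which `a p + b q + c` is positive and has a
finite total stopping time, congruent to `r` modulo `m` and at most
`2 / log (4/3) * log n + x * log 3 * √(2 log n / (log (4/3))^3)`, `n = a p + b q + c`, is
`δ * Phi x / m` times the number of the pairs with `a p + b q + c > 0`, up to `ε (N / log N)²` (for fixed
`m ≥ 1`, `r` and `x`);

(2) (truncated averages) the sum of `min (σ(a p + b q + c), Λ log N) / log N` over the pairs with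
`a p + b q + c > 0` is `δ * 2 / log (4/3) + (1 - δ) * Λ` times their number, up to `ε (N / log N)²` (for
fixed `Λ > 2 / log (4/3)`). -/
theorem result : ∃ δ : ℝ, 0 < δ ∧ δ ≤ 1 ∧ (δ = 1 ↔ ∀ n : ℕ, 1 ≤ n → sigma n ≠ ⊤) ∧
    HasDensity (fun n => sigma n ≠ ⊤) δ ∧
    ∀ a b : ℤ, a ≠ 0 → b ≠ 0 →
    (∀ (m : ℕ) (r : ℤ) (x : ℝ), 1 ≤ m → ∀ ε : ℝ, 0 < ε → ∀ᶠ N : ℕ in atTop, ∀ B B' : Finset ℕ,
      (∀ p ∈ B, p.Prime ∧ p ≤ N) → (∀ p ∈ B', p.Prime ∧ p ≤ N) → ∀ c : ℤ, |c| ≤ N →
      |({z : ℕ × ℕ | z ∈ Pairs a b c B B' ∧ Level m r x (a * (z.1 : ℤ) + b * z.2 + c).toNat}.ncard : ℝ) -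
        δ * Phi x / m * (Pairs a b c B B').card| ≤ ε * (N / Real.log N) ^ 2) ∧
    (∀ Λ : ℝ, 2 / Real.log (4 / 3) < Λ → ∀ ε : ℝ, 0 < ε → ∀ᶠ N : ℕ in atTop, ∀ B B' : Finset ℕ,
      (∀ p ∈ B, p.Prime ∧ p ≤ N) → (∀ p ∈ B', p.Prime ∧ p ≤ N) → ∀ c : ℤ, |c| ≤ N →
      |∑ z ∈ Pairs a b c B B', truncated (Λ * Real.log N) (a * (z.1 : ℤ) + b * z.2 + c).toNat / Real.log N -
        (δ * (2 / Real.log (4 / 3)) + (1 - δ) * Λ) * (Pairs a b c B B').card| ≤ ε * (N / Real.log N) ^ 2) := by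
  classical
  obtain ⟨δ, hδ, h2, h3⟩ := Pool.Agent.TH465.PP.denK
  have hT : ∀ n : ℕ, sigma n ≠ ⊤ ↔ ∃ k : ℕ, T^[k] n = 1 := by
    intro n
    rw [sigma_ne_top]
    constructor
    · rintro ⟨k, hk⟩; exact ⟨k, hk.1⟩
    · rintro ⟨k, hk⟩; exact exists_H hk
  refine ⟨δ, hδ.pos, hδ.le_one, ?_, ?_, fun a b ha hb => ⟨fun m r x hm ε hε => ?_, fun Λ hΛ ε hε => ?_⟩⟩
  · rw [h2]
    exact forall₂_congr fun n _ => (hT n).symm
  · have : HasDensity (fun n => ∃ k : ℕ, T^[k] n = 1) δ := h3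
    simpa only [hT] using this
  · obtain ⟨d1, d2⟩ := Pool.Agent.TH465.PP.dmem hδ.pos hδ.le_one hm x
    filter_upwards [Pool.Agent.TH465.PP.pairs_law d1 d2 (Pool.Agent.TH465.PP.app_level hδ hm r x)
      (Pool.Agent.TH465.PP.fou_level hδ hm r x) ha hb ε hε,
      Pool.Agent.TH204.CP.tlog.eventually_ge_atTop 1] with N h4 h5 B B' hB hB' c hc
    have h6 := h4 B B' hB hB' c hc
    have hL : 0 < Real.log (N : ℝ) ^ 2 := by positivity
    have e : {z : ℕ × ℕ | z ∈ Pairs a b c B B' ∧ Level m r x (a * (z.1 : ℤ) + b * z.2 + c).toNat} =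
        (((Pool.Agent.TH465.PP.PF a b c B B').filter (fun z => Pool.Agent.TH465.PP.LvZ Pool.Agent.TH465.PP.valK
          (Pool.Agent.TH465.PP.clsK m r) (Pool.Agent.TH465.PP.th Pool.Agent.TH465.PP.A0 Pool.Agent.TH465.PP.c0 x)
          (a * (z.1 : ℤ) + b * z.2 + c)) : Finset (ℕ × ℕ)) : Set (ℕ × ℕ)) := by
      ext z
      rw [Finset.mem_coe, Finset.mem_filter]
      change (z ∈ Pairs a b c B B' ∧ _) ↔ (z ∈ Pairs a b c B B' ∧ _)
      refine and_congr_right fun hz => ?_
      exact level_iff m r x _ (Finset.mem_filter.1 hz).2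
    rw [e, Set.ncard_coe_finset, ← mul_le_mul_iff_left₀ hL]
    have hP : Phi x = Pool.Agent.H499R2.ND.Phi x := (Pool.Agent.H499R2.ND.phi_cdf x).symm
    have e1 : ε * ((N : ℝ) / Real.log N) ^ 2 * Real.log N ^ 2 = ε * N ^ 2 := by
      field_simp
    rw [e1, ← abs_of_pos hL, ← abs_mul, hP]
    refine le_trans (le_of_eq ?_) h6
    congr 1
    change _ = _ - δ * Pool.Agent.H499R2.ND.Phi x / m * (((Pairs a b c B B').card : ℝ) * Real.log N ^ 2)
    ring
  · have hF := fun y => Pool.Agent.TH465.PP.fouG hδ y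
    filter_upwards [Pool.Agent.TH465.PP.avg_pairs (fun k _ => Nat.cast_nonneg k) Pool.Agent.TH465.PP.A0_pos
      Pool.Agent.TH465.PP.c0_pos hδ.pos.le hδ.le_one hδ.fin hδ.lawG hF truncated_isTr ha hb hΛ ε hε,
      Pool.Agent.TH204.CP.tlog.eventually_ge_atTop 1] with N h4 h5 B B' hB hB' c hc
    have h6 := h4 B B' hB hB' c hc
    have hL0 : 0 < Real.log (N : ℝ) := by linarith
    have hL : 0 < Real.log (N : ℝ) ^ 3 := by positivity
    rw [← Finset.sum_div, ← mul_le_mul_iff_left₀ hL]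
    have e1 : ε * ((N : ℝ) / Real.log N) ^ 2 * Real.log N ^ 3 = ε * N ^ 2 * Real.log N := by
      field_simp
    rw [e1, ← abs_of_pos hL, ← abs_mul]
    refine le_trans (le_of_eq ?_) h6
    congr 1
    change (((∑ z ∈ Pairs a b c B B', truncated (Λ * Real.log N) (a * (z.1 : ℤ) + b * z.2 + c).toNat) / Real.log N -
      (δ * (2 / Real.log (4 / 3)) + (1 - δ) * Λ) * (Pairs a b c B B').card) * Real.log N ^ 3) =
      (∑ z ∈ Pairs a b c B B', truncated (Λ * Real.log N) (a * (z.1 : ℤ) + b * z.2 + c).toNat) * Real.log N ^ 2 -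
        (δ * (2 / Real.log (4 / 3)) + (1 - δ) * Λ) * (((Pairs a b c B B').card : ℝ) * Real.log N ^ 2) * Real.log N
    field_simp

end Pool.Agent.Results.MP_a1568a_nt.PrimePairs
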